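import Pool.Agent.H639R3.Z.Fiber

set_option autoImplicit false

/-!
Existence of the Frobenius elements of a `ℤ_p`-tower.
-/

namespace Pool.Agent.H823R3.ZP

open Pool.Agent.H639R3 IsDedekindDomain

open scoped Pointwise in
/-- Existence of a Frobenius automorphism at a valuation ring. -/
theorem exists_frob_at {F L A : Type} [Field F] [Field L] [Algebra F L] [IsGalois F L]
    [CommRing A] [IsDedekindDomain A] [Algebra A F] [IsFractionRing A F]
    (p s : ℕ) [hp : Fact p.Prime] [CharP L p]
    (w : ValuationSubring L) (hA : ∀ a : A, algebraMap F L (algebraMap A F a) ∈ w)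
    (hne : w.comap (algebraMap F L) ≠ ⊤)
    (hN : ∀ a : A, w.valuation (algebraMap F L (algebraMap A F (a ^ p ^ s - a))) < 1) :
    ∃ σ : L ≃ₐ[F] L, (∀ a, a ∈ w ↔ σ a ∈ w) ∧ ∀ a ∈ w, w.valuation (σ a - a ^ p ^ s) < 1 := by
  let _ : Algebra A L := ((algebraMap F L).comp (algebraMap A F)).toAlgebra
  have htow : IsScalarTower A F L := .of_algebraMap_eq fun _ => rfl
  have halgA : Algebra.IsAlgebraic A L :=
    (IsFractionRing.comap_isAlgebraic_iff (A := A) (K := F) (C := L)).mpr inferInstance
  have hinjAL : Function.Injective (algebraMap A L) := by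
    rw [IsScalarTower.algebraMap_eq A F L]
    exact (algebraMap F L).injective.comp (IsFractionRing.injective A F)
  have htf : IsDomain (integralClosure A L) := inferInstance
  have hFr : IsFractionRing (integralClosure A L) L :=
    integralClosure.isFractionRing_of_algebraic (fun x hx => hinjAL (by rw [hx, map_zero]))
  let _ : MulSemiringAction (L ≃ₐ[F] L) (integralClosure A L) :=
    IsIntegralClosure.MulSemiringAction A F L (integralClosure A L)
  have hsmul : ∀ (σ : L ≃ₐ[F] L) (c : integralClosure A L), ((σ • c : integralClosure A L) : L) =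
      σ c := fun σ c => algebraMap_galRestrict_apply A σ c
  let _ : TopologicalSpace (integralClosure A L) := ⊥
  have hdisc : DiscreteTopology (integralClosure A L) := ⟨rfl⟩
  have hcont : ContinuousSMul (L ≃ₐ[F] L) (integralClosure A L) := by
    refine (continuousSMul_iff_stabilizer_isOpen (M := L ≃ₐ[F] L)
      (X := integralClosure A L)).mpr fun c => ?_
    have h1 := stabilizer_isOpen_of_isIntegral (K := F) (L := L) (c : L)
    convert h1 using 1
    ext σ
    simp only [SetLike.mem_coe, MulAction.mem_stabilizer_iff]
    constructor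
    · intro h2
      have h3 := congrArg (fun z : integralClosure A L => (z : L)) h2
      simp only [hsmul] at h3
      exact h3
    · intro h2
      apply Subtype.ext
      rw [hsmul]
      exact h2
  have hcomm : SMulCommClass (L ≃ₐ[F] L) A (integralClosure A L) := by
    constructor
    intro σ a c
    apply Subtype.ext
    rw [hsmul]
    change σ (a • (c : L)) = a • ((σ • c : integralClosure A L) : L)
    rw [hsmul, Algebra.smul_def, Algebra.smul_def, map_mul]
    congr 1
    rw [IsScalarTower.algebraMap_apply A F L, AlgEquiv.commutes]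
  have hinv : Algebra.IsInvariant A (integralClosure A L) (L ≃ₐ[F] L) := by
    refine ⟨fun b hb => ?_⟩
    have hb2 : ∀ σ : L ≃ₐ[F] L, σ (b : L) = b := fun σ => by rw [← hsmul, hb σ]
    obtain ⟨y, hy⟩ := (InfiniteGalois.mem_range_algebraMap_iff_fixed (k := F) (K := L) (b : L)).mpr hb2
    have hy2 : IsIntegral A y := by
      have := b.2
      rw [mem_integralClosure_iff, ← hy] at this
      exact (isIntegral_algebraMap_iff (algebraMap F L).injective).mp this
    obtain ⟨a, ha⟩ := IsIntegrallyClosed.isIntegral_iff.mp hy2
    refine ⟨a, ?_⟩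
    apply Subtype.ext
    change algebraMap A L a = (b : L)
    rw [← hy, ← ha, ← IsScalarTower.algebraMap_apply]
  have hAw : ∀ a : A, algebraMap A L a ∈ w := hA
  have hC : ∀ c : integralClosure A L, algebraMap (integralClosure A L) L c ∈ w := fun c =>
    integral_mem w hAw c c.2
  -- the center
  set Q : Ideal (integralClosure A L) := cent w hC with hQ
  have hAF : ∀ a : A, algebraMap A F a ∈ w.comap (algebraMap F L) := hA
  have hP : Q.under A = cent (w.comap (algebraMap F L)) hAF := by
    ext a
    rw [Ideal.under_def, Ideal.mem_comap, hQ, mem_cent, mem_cent, comap_val_lt_one]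
    rfl
  have hPmax : (Q.under A).IsMaximal := by
    rw [hP]
    exact (cent_isPrime _ _).isMaximal (cent_ne_bot _ hAF hne)
  have hintA : Algebra.IsIntegral A (integralClosure A L) := inferInstance
  have hQmax : Q.IsMaximal := Ideal.isMaximal_of_isIntegral_of_isMaximal_comap (R := A) Q hPmax
  let _ : Field (A ⧸ Q.under A) := Ideal.Quotient.field _
  let _ : Field (integralClosure A L ⧸ Q) := Ideal.Quotient.field _
  have halg : Algebra.IsAlgebraic (A ⧸ Q.under A) (integralClosure A L ⧸ Q) := by
    have : Algebra.IsIntegral (A ⧸ Q.under A) (integralClosure A L ⧸ Q) := by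
      constructor
      intro z
      obtain ⟨c, rfl⟩ := Ideal.Quotient.mk_surjective z
      have h1 : IsIntegral A c := Algebra.IsIntegral.isIntegral c
      have h2 : IsIntegral A (Ideal.Quotient.mk Q c) := h1.map (Ideal.Quotient.mkₐ A Q)
      exact h2.tower_top
    exact Algebra.IsIntegral.isAlgebraic
  have hchar : CharP (integralClosure A L ⧸ Q) p := by
    have h1 : ((p : ℕ) : integralClosure A L) = 0 := by
      apply Subtype.ext
      push_cast
      exact CharP.cast_eq_zero L p
    have h2 : ((p : ℕ) : integralClosure A L ⧸ Q) = 0 := by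
      rw [← map_natCast (Ideal.Quotient.mk Q), h1, map_zero]
    exact (CharP.charP_iff_prime_eq_zero hp.out).mpr h2
  have hexp : ExpChar (integralClosure A L ⧸ Q) p := .prime hp.out
  have hexpL : ExpChar L p := .prime hp.out
  let φ : (integralClosure A L ⧸ Q) →ₐ[A ⧸ Q.under A] (integralClosure A L ⧸ Q) :=
    { iterateFrobenius (integralClosure A L ⧸ Q) p s with
      commutes' := by
        intro r
        obtain ⟨a, rfl⟩ := Ideal.Quotient.mk_surjective r
        change (algebraMap (A ⧸ Q.under A) (integralClosure A L ⧸ Q)
          (Ideal.Quotient.mk (Q.under A) a)) ^ p ^ s = _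
        rw [← map_pow, ← map_pow]
        congr 1
        rw [Ideal.Quotient.eq, hP, mem_cent, comap_val_lt_one]
        exact hN a }
  have htf3 : Module.IsTorsionFree (A ⧸ Q.under A) (integralClosure A L ⧸ Q) := by
    exact Module.isTorsionFree_iff_algebraMap_injective.mpr
      (algebraMap (A ⧸ Q.under A) (integralClosure A L ⧸ Q)).injective
  have hφ : Function.Bijective φ := Algebra.IsAlgebraic.algHom_bijective φ
  obtain ⟨⟨τ, hτQ⟩, hσ⟩ := Ideal.Quotient.stabilizerHom_surjective_of_profinite (G := L ≃ₐ[F] L)
    (Q.under A) Q (AlgEquiv.ofBijective φ hφ)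
  have hσ1 : ∀ c : integralClosure A L, w.valuation (τ (c : L) - (c : L) ^ p ^ s) < 1 := by
    intro c
    have h1 := DFunLike.congr_fun hσ (Ideal.Quotient.mk Q c)
    have h2 : Ideal.Quotient.mk Q (τ • c) = Ideal.Quotient.mk Q (c ^ p ^ s) := by
      rw [map_pow]
      exact h1
    rw [Ideal.Quotient.eq] at h2
    replace h2 := (mem_cent w hC _).mp h2
    have h3 : algebraMap (integralClosure A L) L (τ • c - c ^ p ^ s) =
        τ (c : L) - (c : L) ^ p ^ s := by
      rw [map_sub, map_pow]
      congr 1
      exact hsmul τ c
    rw [h3] at h2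
    exact h2
  have hσ2 : ∀ c : integralClosure A L, w.valuation (c : L) < 1 ↔
      w.valuation (τ (c : L)) < 1 := by
    intro c
    have hstab : τ • Q = Q := hτQ
    have h1 : c ∈ Q ↔ τ • c ∈ Q := by
      conv_rhs => rw [← hstab]
      exact Ideal.smul_mem_pointwise_smul_iff.symm
    rw [mem_cent w hC, mem_cent w hC] at h1
    have h2 : algebraMap (integralClosure A L) L (τ • c) = τ (c : L) := hsmul τ c
    rw [h2] at h1
    exact h1
  have main : ∀ z : L, (z ∈ w ↔ τ z ∈ w) ∧ (z ∈ w → ∃ c : integralClosure A L,
      w.valuation (z - c) < 1) := by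
    intro z
    set M := IntermediateField.adjoin F {z} with hM
    have hfd : FiniteDimensional F M :=
      IntermediateField.adjoin.finiteDimensional (Algebra.IsIntegral.isIntegral z)
    have hzM : z ∈ M := IntermediateField.mem_adjoin_simple_self F z
    let _ : Algebra A M := ((algebraMap F M).comp (algebraMap A F)).toAlgebra
    have htowM : IsScalarTower A F M := .of_algebraMap_eq fun _ => rfl
    have htowML : IsScalarTower A M L := .of_algebraMap_eq fun _ => rfl
    have hne1 : ∀ O : ValuationSubring L, O.comap (algebraMap F L) ≠ ⊤ →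
        O.comap (algebraMap M L) ≠ ⊤ := by
      intro O hO htop
      apply hO
      rw [eq_top_iff]
      intro y _
      have h1 : algebraMap F M y ∈ O.comap (algebraMap M L) := by rw [htop]; trivial
      exact h1
    constructor
    · have heq : w.comap (algebraMap M L) =
          (w.comap ((τ : L ≃ₐ[F] L) : L →+* L)).comap (algebraMap M L) := by
        have hfix : ∀ y : F, τ (algebraMap F L y) = algebraMap F L y := fun y =>
          AlgEquiv.commutes _ _
        apply eq_of_integral_nonunits (A := A) (F := F)
        · intro a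
          exact hA a
        · intro a
          rw [ValuationSubring.mem_comap, ValuationSubring.mem_comap]
          change τ (algebraMap F L (algebraMap A F a)) ∈ w
          rw [hfix]
          exact hA a
        · exact hne1 w hne
        · apply hne1
          intro htop
          apply hne
          rw [eq_top_iff]
          intro y _
          have h1 : y ∈ (w.comap ((τ : L ≃ₐ[F] L) : L →+* L)).comap (algebraMap F L) := by
            rw [htop]; trivial
          rw [ValuationSubring.mem_comap, ValuationSubring.mem_comap] at h1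
          have h2 : ((τ : L ≃ₐ[F] L) : L →+* L) (algebraMap F L y) = algebraMap F L y := hfix y
          rw [h2] at h1
          exact h1
        · intro c hc
          have hcL : IsIntegral A (c : L) := by
            have : IsIntegral A (algebraMap M L c) := hc.algebraMap
            exact this
          have h1 := hσ2 ⟨(c : L), hcL⟩
          rw [comap_val_lt_one, comap_val_lt_one, comap_val_lt_one]
          exact h1
      have h1 : (⟨z, hzM⟩ : M) ∈ w.comap (algebraMap M L) ↔
          (⟨z, hzM⟩ : M) ∈ (w.comap ((τ : L ≃ₐ[F] L) : L →+* L)).comap (algebraMap M L) := by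
        rw [← heq]
      exact h1
    · intro hz
      have hD : IsDedekindDomain (integralClosure A M) :=
        integralClosure.isDedekindDomain A F (L := M)
      have hFrM : IsFractionRing (integralClosure A M) M :=
        integralClosure.isFractionRing_of_finite_extension F M
      have hCM : ∀ a : integralClosure A M, algebraMap (integralClosure A M) M a ∈
          w.comap (algebraMap M L) := fun a => integral_mem (A := A)
            (w.comap (algebraMap M L)) (fun b => hA b) (a : M) a.2
      obtain ⟨c, hc⟩ := residue_surjective (w.comap (algebraMap M L)) hCM (hne1 w hne)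
        (IsLocalRing.residue (w.comap (algebraMap M L)) ⟨⟨z, hzM⟩, hz⟩)
      rw [RingHom.comp_apply, ← sub_eq_zero, ← map_sub, IsLocalRing.residue_eq_zero_iff,
        ValuationSubring.valuation_lt_one_iff, comap_val_lt_one] at hc
      have hcL : IsIntegral A ((c : M) : L) := by
        have : IsIntegral A (algebraMap M L (c : M)) := c.2.algebraMap
        exact this
      refine ⟨⟨((c : M) : L), hcL⟩, ?_⟩
      rw [← Valuation.map_neg]
      convert hc using 2
      change -(z - ((c : M) : L)) = ((c : M) : L) - z
      ring
  refine ⟨τ, fun z => (main z).1, fun z hz => ?_⟩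
  obtain ⟨c, hc⟩ := (main z).2 hz
  -- `τ` preserves the valuation being less than one
  have hlt : ∀ y : L, w.valuation y < 1 → w.valuation (τ y) < 1 := by
    intro y hy
    rw [val_lt_one_iff] at hy ⊢
    rcases hy with hy | hy
    · left; rw [hy, map_zero]
    · right
      rw [← map_inv₀]
      intro h
      exact hy (((main y⁻¹).1).mpr h)
  have h1 : τ z - z ^ p ^ s = (τ (c : L) - (c : L) ^ p ^ s) + (τ (z - c) - (z - c) ^ p ^ s) := by
    rw [sub_pow_expChar_pow, map_sub]
    ring
  rw [h1]
  refine lt_of_le_of_lt (Valuation.map_add _ _ _) (max_lt (hσ1 c) ?_)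
  refine lt_of_le_of_lt (Valuation.map_sub _ _ _) (max_lt (hlt _ hc) ?_)
  rw [map_pow]
  exact pow_lt_one₀ zero_le hc (pow_ne_zero _ hp.out.ne_zero)

/-- The residue field of a closed point: the number of elements. -/
theorem card_res {k K : Type} [Field k] [Finite k] [Field K] [Algebra k K] (hK : IsCurve k K)
    (x : ClosedPoint k K) : Finite (IsLocalRing.ResidueField x.ring) ∧
      Nat.card (IsLocalRing.ResidueField x.ring) = Nat.card k ^ x.deg := by
  have hfin := x.finite_residue hK
  let _ : Algebra k (IsLocalRing.ResidueField x.ring) := x.constHom.toAlgebra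
  have : Fintype k := Fintype.ofFinite k
  have hf : Finite (IsLocalRing.ResidueField x.ring) := Module.finite_of_finite k
  have : Fintype (IsLocalRing.ResidueField x.ring) := Fintype.ofFinite _
  refine ⟨hf, ?_⟩
  rw [Nat.card_eq_fintype_card, Nat.card_eq_fintype_card]
  exact Module.card_eq_pow_finrank

/-- The Frobenius element of a closed point in a `ℤ_p`-tower exists. -/
theorem isFrob_frob {p : ℕ} [hp : Fact p.Prime] {k K L : Type} [Field k] [Finite k] [CharP k p]
    [Field K] [Field L] [Algebra k K] [Algebra K L] [Algebra k L] [IsScalarTower k K L]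
    (T : ZpTower p k K L) (x : ClosedPoint k K) : IsFrob x (frob x : L ≃ₐ[K] L) := by
  apply Classical.epsilon_spec (p := fun σ : L ≃ₐ[K] L => IsFrob x σ)
  have := T.galois
  have hcharL : CharP L p := charP_of_injective_algebraMap (algebraMap k L).injective p
  obtain ⟨s, hs⟩ : ∃ s, Nat.card k ^ x.deg = p ^ s := by
    have : Fintype k := Fintype.ofFinite k
    obtain ⟨r, -, hr⟩ := FiniteField.card k p
    refine ⟨r * x.deg, ?_⟩
    rw [Nat.card_eq_fintype_card, hr, pow_mul]
  obtain ⟨w, hw⟩ := ZpTower.exists_over (L := L) x
  obtain ⟨A, h1, h2, h3⟩ := exists_base T.curve x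
  obtain ⟨τ, hτ1, hτ2⟩ := exists_frob_at (F := K) (A := A) p s w (by
    intro a
    have h4 := h3 _ a.2
    rw [← hw] at h4
    exact h4) (by rw [hw]; exact x.ne_top) (by
    intro a
    have h5 : (IsLocalRing.residue x.ring ⟨(a : K), h3 _ a.2⟩) ^ (Nat.card k ^ x.deg) =
      IsLocalRing.residue x.ring ⟨(a : K), h3 _ a.2⟩ := frob_fixed x (x.finite_residue T.curve) _
    rw [← map_pow, ← sub_eq_zero, ← map_sub, IsLocalRing.residue_eq_zero_iff,
      ValuationSubring.valuation_lt_one_iff, hs] at h5
    rw [← comap_val_lt_one, hw]
    exact h5)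
  refine ⟨τ, fun w' hw' => ?_⟩
  obtain ⟨z, rfl⟩ := T.exists_mv x w w' hw hw'
  have hcomm : ∀ a : L, T.aut z (τ a) = τ (T.aut z a) := by
    intro a
    rw [← T.aut_surj τ, ← T.aut_add, ← T.aut_add, add_comm]
  have hval : ∀ a : L, (T.mv z w).valuation a < 1 ↔ w.valuation (T.aut z a) < 1 := by
    intro a
    exact comap_val_lt_one w ((T.aut z : L ≃ₐ[K] L) : L →+* L) a
  constructor
  · intro a
    rw [T.mem_mv, T.mem_mv, hcomm]
    exact hτ1 _
  · intro a ha
    rw [hs, hval, map_sub, map_pow, hcomm]
    exact hτ2 _ ha

end Pool.Agent.H823R3.ZP
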