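import Pool.Agent.H823R3.ZP.Witt

set_option autoImplicit false

/-!
The Frobenius formula for Artin-Schreier-Witt generators.
-/

namespace Pool.Agent.H823R3.ZP

open H680ZP Pool.Agent.H639R3

section lift

variable {p : ℕ} [hp : Fact p.Prime] {L : Type} [Field L] (w : ValuationSubring L)

/-- the lift to `W(w)` of the first `n` components -/
noncomputable def lft (n : ℕ) (u : WittVector p L) (h : ∀ j, j < n → u.coeff j ∈ w) :
    WittVector p w :=
  WittVector.mk p fun j => if hj : j < n then ⟨u.coeff j, h j hj⟩ else 0

theorem lft_coeff (n : ℕ) (u : WittVector p L) (h : ∀ j, j < n → u.coeff j ∈ w) (j : ℕ)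
    (hj : j < n) : (lft w n u h).coeff j = ⟨u.coeff j, h j hj⟩ := by
  rw [lft, WittVector.coeff_mk, dif_pos hj]

theorem map_lft (n : ℕ) (u : WittVector p L) (h : ∀ j, j < n → u.coeff j ∈ w) :
    VZ n (WittVector.map w.subtype (lft w n u h) - u) := by
  rw [vz_sub_iff]
  intro i hi
  rw [WittVector.map_coeff, lft_coeff w n u h i hi]
  rfl

/-- an element `y` with `y ^ p - y ∈ w` lies in `w` -/
theorem mem_of_as (y : L) (h : y ^ p - y ∈ w) : y ∈ w := by
  apply integral_mem (A := w) w (fun a => a.2)
  refine ⟨Polynomial.X ^ p - Polynomial.X - Polynomial.C ⟨y ^ p - y, h⟩, ?_, ?_⟩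
  · rw [sub_sub]
    apply Polynomial.monic_X_pow_sub
    refine (Polynomial.degree_add_le _ _).trans_lt ?_
    rw [max_lt_iff]
    constructor
    · rw [Polynomial.degree_X]
      exact_mod_cast hp.out.one_lt
    · refine Polynomial.degree_C_le.trans_lt ?_
      exact_mod_cast hp.out.pos
  · simp only [Polynomial.eval₂_sub, Polynomial.eval₂_pow, Polynomial.eval₂_X, Polynomial.eval₂_C]
    change y ^ p - y - (y ^ p - y) = 0
    ring

/-- the components of an Artin-Schreier-Witt generator are integral -/
theorem coeff_mem [CharP L p] (n : ℕ) (y : WittVector p L)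
    (h : ∀ j, j < n → (WittVector.frobenius y - y).coeff j ∈ w) : ∀ j, j < n → y.coeff j ∈ w := by
  intro j
  induction j using Nat.strong_induction_on with
  | _ j ih =>
    intro hj
    -- the initial part
    have hI : ∀ i, i < j → y.coeff i ∈ w := fun i hi => ih i hi (hi.trans hj)
    set I : WittVector p L := WittVector.map w.subtype (lft w j y hI) with hIdef
    set t : WittVector p L := y - I with ht
    have ht0 : ∀ i, i < j → t.coeff i = 0 := by
      have h1 := map_lft w j y hI
      have h2 : VZ j (y - WittVector.map w.subtype (lft w j y hI)) := by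
        rw [vz_sub_iff] at h1 ⊢
        intro i hi
        exact (h1 i hi).symm
      exact h2
    have hchw : CharP w p := RingHom.charP w.subtype Subtype.val_injective p
    -- `F t - t`
    have h1 : WittVector.frobenius t - t = (WittVector.frobenius y - y) -
        (WittVector.frobenius I - I) := by
      rw [ht, map_sub]; ring
    have h2 : (WittVector.frobenius t - t).coeff j ∈ w := by
      set A' := lft w (j + 1) (WittVector.frobenius y - y) (fun i hi => h i (by omega)) with hA'
      have h3 : VZ (j + 1) (WittVector.map w.subtype (A' -
          (WittVector.frobenius (lft w j y hI) - lft w j y hI)) -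
            (WittVector.frobenius t - t)) := by
        have h4 := map_lft w (j + 1) (WittVector.frobenius y - y) (fun i hi => h i (by omega))
        have h5 : WittVector.map w.subtype (WittVector.frobenius (lft w j y hI)) =
            WittVector.frobenius I := by
          rw [hIdef]
          ext i
          rw [WittVector.map_coeff, WittVector.coeff_frobenius_charP,
            WittVector.coeff_frobenius_charP, WittVector.map_coeff, map_pow]
        rw [h1, map_sub, map_sub, h5]
        convert h4 using 1
        rw [← hIdef]
        ring
      rw [vz_sub_iff] at h3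
      have h6 := h3 j (Nat.lt_succ_self j)
      rw [← h6, WittVector.map_coeff]
      exact Subtype.property _
    -- the component `j`
    have h7 : t = (WittVector.verschiebung)^[j] (t.shift j) :=
      WittVector.eq_iterate_verschiebung ht0
    have h8 : (WittVector.frobenius t - t).coeff j = (t.coeff j) ^ p - t.coeff j := by
      have h9 : WittVector.frobenius t = (WittVector.verschiebung)^[j]
          (WittVector.frobenius (t.shift j)) := by
        conv_lhs => rw [h7]
        have h3 : Function.Commute (WittVector.frobenius : WittVector p L → WittVector p L)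
          (WittVector.verschiebung) := WittVector.verschiebung_frobenius_comm.symm
        exact (h3.iterate_right j) _
      rw [h9]
      conv_lhs => rw [h7]
      rw [← viter_sub]
      have h10 := WittVector.iterate_verschiebung_coeff
        (WittVector.frobenius (t.shift j) - t.shift j) j 0
      rw [zero_add] at h10
      have h11 : ((WittVector.verschiebung)^[j] (t.shift j)).shift j = t.shift j := by
        rw [← h7]
      rw [h11, h10]
      have h12 : ∀ a b : WittVector p L, (a - b).coeff 0 = a.coeff 0 - b.coeff 0 := fun a b =>
        map_sub (WittVector.constantCoeff (p := p) (R := L)) a b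
      rw [h12, WittVector.coeff_frobenius_charP, WittVector.shift_coeff, add_zero]
    have h13 : t.coeff j = y.coeff j := by
      -- `y = I + t`, the component `j` of `I` vanishes
      have h14 : y = I + t := by rw [ht]; ring
      have h15 : ∀ i, I.coeff i = 0 ∨ t.coeff i = 0 := by
        intro i
        by_cases hi : i < j
        · right; exact ht0 i hi
        · left
          rw [hIdef, WittVector.map_coeff, lft, WittVector.coeff_mk, dif_neg hi, map_zero]
      have h16 := WittVector.coeff_add_of_disjoint j I t h15
      rw [← h14] at h16
      have h17 : I.coeff j = 0 := by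
        rw [hIdef, WittVector.map_coeff, lft, WittVector.coeff_mk, dif_neg (lt_irrefl j), map_zero]
      rw [h16, h17, zero_add]
    rw [h8, h13] at h2
    exact mem_of_as w _ h2

end lift

theorem map_frobenius' {p : ℕ} [hp : Fact p.Prime] {R S : Type*} [CommRing R] [CommRing S]
    [CharP R p] [CharP S p] (f : R →+* S) (x : WittVector p R) :
    WittVector.map f (WittVector.frobenius x) = WittVector.frobenius (WittVector.map f x) := by
  ext i
  rw [WittVector.map_coeff, WittVector.coeff_frobenius_charP, WittVector.coeff_frobenius_charP,
    WittVector.map_coeff, map_pow]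

/-- A4. The Frobenius formula. -/
theorem taskFrob : TaskFrob := by
  intro p hp k K L _ _ _ _ _ _ _ _ _ T n y hy b hb x hx hbx ι
  have hcharL : CharP L p := charP_of_injective_algebraMap (algebraMap k L).injective p
  set σ : L ≃ₐ[K] L := frob x with hσ
  have hfrob : IsFrob x σ := isFrob_frob T x
  obtain ⟨w, hw⟩ := ZpTower.exists_over (L := L) x
  obtain ⟨hs1, hs2⟩ := hfrob w hw
  obtain ⟨hfinκ, hcard⟩ := card_res T.curve x
  have hxw : ∀ a : K, a ∈ x.ring ↔ algebraMap K L a ∈ w := by
    intro a
    rw [← hw]
    rfl
  let yp : ClosedPoint k L :=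
    { ring := w
      const_mem := by
        intro a
        rw [IsScalarTower.algebraMap_apply k K L]
        exact (hxw _).mp (x.const_mem a)
      ne_top := by
        intro h
        apply x.ne_top
        rw [eq_top_iff]
        intro a _
        rw [hxw, h]
        trivial }
  let g : IsLocalRing.ResidueField x.ring →+* IsLocalRing.ResidueField w :=
    resMap x yp (algebraMap K L) hxw
  have hg : ∀ a : x.ring, g (IsLocalRing.residue x.ring a) =
      IsLocalRing.residue w ⟨algebraMap K L (a : K), (hxw _).mp a.2⟩ := fun a => rfl
  obtain ⟨r, hr⟩ : ∃ r, Nat.card k ^ x.deg = p ^ r := by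
    have : Fintype k := Fintype.ofFinite k
    obtain ⟨r, -, hr⟩ := FiniteField.card k p
    refine ⟨r * x.deg, ?_⟩
    rw [Nat.card_eq_fintype_card, hr, pow_mul]
  have hlog : Nat.log p (Nat.card (IsLocalRing.ResidueField x.ring)) = r := by
    rw [hcard, hr, Nat.log_pow hp.out.one_lt]
  have hfix : ∀ c : IsLocalRing.ResidueField x.ring, c ^ p ^ r = c := by
    intro c
    rw [← hr]
    exact frob_fixed x (x.finite_residue T.curve) c
  have hbw : ∀ j, j < n → algebraMap K L (b j) ∈ w := fun j hj => (hxw _).mp (hbx j hj)
  have hyw : ∀ j, j < n → y.coeff j ∈ w :=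
    coeff_mem w n y (fun j hj => by rw [hb j hj]; exact hbw j hj)
  -- characteristics
  have hchw : CharP w p := RingHom.charP w.subtype Subtype.val_injective p
  have hchκw : CharP (IsLocalRing.ResidueField w) p := by
    refine (CharP.charP_iff_prime_eq_zero hp.out).mpr ?_
    rw [← map_natCast (IsLocalRing.residue w), CharP.cast_eq_zero, map_zero]
  -- lifts
  set Y' : WittVector p w := lft w n y hyw with hY'
  set B' : WittVector p w := WittVector.mk p fun j =>
    if hj : j < n then ⟨algebraMap K L (b j), hbw j hj⟩ else 0 with hB'
  have hsubinj : Function.Injective w.subtype := Subtype.val_injective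
  have hYy : VZ n (WittVector.map w.subtype Y' - y) := map_lft w n y hyw
  let σw : w →+* w := ((σ : L →+* L).comp w.subtype).codRestrict w.toSubring
    (fun a => (hs1 a).mp a.2)
  have e1 : VZ n (WittVector.frobenius Y' - Y' - B') := by
    apply vz_of_map w.subtype hsubinj
    rw [map_sub, map_sub, map_frobenius']
    have h1 : VZ n (WittVector.frobenius y - y - WittVector.map w.subtype B') := by
      rw [vz_sub_iff]
      intro i hi
      rw [hb i hi, WittVector.map_coeff, hB', WittVector.coeff_mk, dif_pos hi]
      rfl
    have h2 := vz_frob n _ hYy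
    rw [map_sub] at h2
    have h3 := vz_sub n (vz_add n h1 h2) hYy
    convert h3 using 1
    ring
  have e2 : VZ n (WittVector.map σw Y' - Y' - (ex T n σ : WittVector p w)) := by
    apply vz_of_map w.subtype hsubinj
    rw [map_sub, map_sub, map_natCast]
    have h1 := hy σ
    have h2 := vz_map (σ : L →+* L) n _ hYy
    rw [map_sub] at h2
    have h3 : WittVector.map w.subtype (WittVector.map σw Y') =
        WittVector.map (σ : L →+* L) (WittVector.map w.subtype Y') := by
      ext i
      simp only [WittVector.map_coeff]
      rfl
    rw [h3]
    have h4 := vz_sub n (vz_add n h1 h2) hYy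
    convert h4 using 1
    ring
  -- reduction
  set red : w →+* IsLocalRing.ResidueField w := IsLocalRing.residue w with hred
  set Y : WittVector p (IsLocalRing.ResidueField w) := WittVector.map red Y' with hY
  have f1 : VZ n (WittVector.frobenius Y - Y - WittVector.map red B') := by
    have h1 := vz_map red n _ e1
    rw [map_sub, map_sub, map_frobenius'] at h1
    exact h1
  have hredσ : ∀ a : w, red (σw a) = red a ^ p ^ r := by
    intro a
    rw [← map_pow, ← sub_eq_zero, ← map_sub, hred, IsLocalRing.residue_eq_zero_iff,
      ValuationSubring.valuation_lt_one_iff, ← hr]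
    exact hs2 a a.2
  have f2 : VZ n ((WittVector.frobenius)^[r] Y - Y -
      (ex T n σ : WittVector p (IsLocalRing.ResidueField w))) := by
    have h1 := vz_map red n _ e2
    rw [map_sub, map_sub, map_natCast] at h1
    have h2 : WittVector.map red (WittVector.map σw Y') = (WittVector.frobenius)^[r] Y := by
      ext i
      rw [WittVector.iterate_frobenius_coeff, WittVector.map_coeff, WittVector.map_coeff, hredσ,
        hY, WittVector.map_coeff]
    rw [h2] at h1
    exact h1
  -- the residues
  set β : ℕ → IsLocalRing.ResidueField w := fun j =>
    if hj : j < n then g (IsLocalRing.residue x.ring ⟨b j, hbx j hj⟩) else 0 with hβ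
  have f3 := main_res n r Y (WittVector.map red B') β (by
    intro j hj
    rw [hβ]
    simp only [dif_pos hj]
    rw [← map_pow, hfix]) (by
    intro j hj
    rw [hβ, WittVector.map_coeff, hB', WittVector.coeff_mk]
    simp only [dif_pos hj]
    rw [hg]) f1
  have f4 : VZ n ((ex T n σ : WittVector p (IsLocalRing.ResidueField w)) -
      ∑ j ∈ Finset.range n, (p : WittVector p (IsLocalRing.ResidueField w)) ^ j *
        tr p r (β j)) := by
    have h1 := vz_sub n f3 f2
    convert h1 using 1
    ring
  have f5 : VZ n ((ex T n σ : WittVector p (IsLocalRing.ResidueField x.ring)) -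
      ∑ j : Fin n, (p : WittVector p (IsLocalRing.ResidueField x.ring)) ^ (j : ℕ) *
        tr p r (IsLocalRing.residue x.ring ⟨b j, hbx j j.2⟩)) := by
    apply vz_of_map g g.injective
    rw [map_sub, map_natCast, map_sum]
    convert f4 using 2
    rw [Finset.sum_range]
    refine Finset.sum_congr rfl fun j _ => ?_
    rw [map_mul, map_pow, map_natCast, map_tr]
    congr 2
    rw [hβ]
    simp only [dif_pos j.2]
  have f6 := vz_map ι n _ f5
  rw [map_sub, map_natCast, map_sum] at f6
  convert f6 using 3
  rename_i j _
  rw [map_mul, map_pow, map_natCast, map_tr]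
  congr 1
  rw [tt, hlog, tr]

end Pool.Agent.H823R3.ZP
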