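import Pool.Agent.H680R3.ZP.Stmts
import Pool.Agent.H823R3.ZP.Frob

set_option autoImplicit false

/-!
Witt vectors modulo `V ^ n`.
-/

namespace Pool.Agent.H823R3.ZP

open H680ZP

section witt

variable {p : ℕ} [hp : Fact p.Prime] {R S : Type*} [CommRing R] [CommRing S]

theorem vz_iff (n : ℕ) (w : WittVector p R) : VZ n w ↔ WittVector.truncate n w = 0 := by
  rw [← RingHom.mem_ker, WittVector.mem_ker_truncate]
  rfl

theorem vz_sub_iff (n : ℕ) (a b : WittVector p R) :
    VZ n (a - b) ↔ ∀ i, i < n → a.coeff i = b.coeff i := by
  rw [vz_iff, map_sub, sub_eq_zero, TruncatedWittVector.ext_iff, Fin.forall_iff]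
  simp only [WittVector.coeff_truncate]

theorem vz_map (f : R →+* S) (n : ℕ) (w : WittVector p R) (h : VZ n w) :
    VZ n (WittVector.map f w) := by
  intro i hi
  rw [WittVector.map_coeff, h i hi, map_zero]

theorem vz_of_map (f : R →+* S) (hf : Function.Injective f) (n : ℕ) (w : WittVector p R)
    (h : VZ n (WittVector.map f w)) : VZ n w := by
  intro i hi
  have h1 := h i hi
  rw [WittVector.map_coeff] at h1
  exact hf (by rw [h1, map_zero])

theorem vz_add (n : ℕ) {a b : WittVector p R} (ha : VZ n a) (hb : VZ n b) : VZ n (a + b) := by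
  rw [vz_iff] at *
  rw [map_add, ha, hb, add_zero]

theorem vz_sub (n : ℕ) {a b : WittVector p R} (ha : VZ n a) (hb : VZ n b) : VZ n (a - b) := by
  rw [vz_iff] at *
  rw [map_sub, ha, hb, sub_zero]

theorem vz_sum {ι : Type*} (s : Finset ι) (f : ι → WittVector p R) (n : ℕ)
    (h : ∀ i ∈ s, VZ n (f i)) : VZ n (∑ i ∈ s, f i) := by
  rw [vz_iff, map_sum]
  exact Finset.sum_eq_zero fun i hi => (vz_iff n _).mp (h i hi)

theorem vz_frob [CharP R p] (n : ℕ) (w : WittVector p R) (h : VZ n w) :
    VZ n (WittVector.frobenius w) := by
  intro i hi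
  rw [WittVector.coeff_frobenius_charP, h i hi, zero_pow hp.out.ne_zero]

theorem vz_frob_iter [CharP R p] (n r : ℕ) (w : WittVector p R) (h : VZ n w) :
    VZ n ((WittVector.frobenius)^[r] w) := by
  induction r with
  | zero => exact h
  | succ r ih =>
    rw [Function.iterate_succ_apply']
    exact vz_frob n _ ih

/-- `V ^ j` is additive. -/
theorem viter_sum {ι : Type*} (s : Finset ι) (j : ℕ) (f : ι → WittVector p R) :
    (WittVector.verschiebung)^[j] (∑ i ∈ s, f i) =
      ∑ i ∈ s, (WittVector.verschiebung)^[j] (f i) := by
  induction j with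
  | zero => rfl
  | succ j ih =>
    simp only [Function.iterate_succ_apply']
    rw [ih, map_sum]

theorem viter_sub (j : ℕ) (a b : WittVector p R) :
    (WittVector.verschiebung)^[j] (a - b) =
      (WittVector.verschiebung)^[j] a - (WittVector.verschiebung)^[j] b := by
  induction j with
  | zero => rfl
  | succ j ih =>
    simp only [Function.iterate_succ_apply']
    rw [ih, map_sub]

theorem viter_teich_coeff (j i : ℕ) (c : R) :
    ((WittVector.verschiebung)^[j] (WittVector.teichmuller p c)).coeff i =
      if i = j then c else 0 := by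
  split_ifs with h
  · subst h
    have := WittVector.iterate_verschiebung_coeff (WittVector.teichmuller p c) i 0
    rw [zero_add] at this
    rw [this, WittVector.teichmuller_coeff_zero]
  · rcases lt_or_gt_of_ne h with h1 | h1
    · exact WittVector.iterate_verschiebung_coeff_eq_zero _ h1
    · obtain ⟨d, rfl⟩ := Nat.exists_eq_add_of_lt h1
      have := WittVector.iterate_verschiebung_coeff (WittVector.teichmuller p c) j (d + 1)
      rw [show j + d + 1 = d + 1 + j by ring, this]
      exact WittVector.teichmuller_coeff_pos _ _ _ (Nat.succ_pos d)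

/-- A Witt vector whose components vanish from `n` on is a sum of shifted Teichmüller
representatives. -/
theorem eq_sum_teich (n : ℕ) (B : WittVector p R) (hB : ∀ i, n ≤ i → B.coeff i = 0) :
    B = ∑ j ∈ Finset.range n, (WittVector.verschiebung)^[j] (WittVector.teichmuller p (B.coeff j)) := by
  have key : ∀ m, ∀ i, (∑ j ∈ Finset.range m,
      (WittVector.verschiebung)^[j] (WittVector.teichmuller p (B.coeff j))).coeff i =
        if i < m then B.coeff i else 0 := by
    intro m
    induction m with
    | zero => intro i; simp
    | succ m ih =>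
      intro i
      rw [Finset.sum_range_succ, WittVector.coeff_add_of_disjoint]
      · rw [ih, viter_teich_coeff]
        by_cases h1 : i = m
        · subst h1; simp
        · by_cases h2 : i < m
          · rw [if_pos h2, if_neg h1, if_pos (by omega), add_zero]
          · rw [if_neg h2, if_neg h1, if_neg (by omega), add_zero]
      · intro l
        rw [ih, viter_teich_coeff]
        by_cases h1 : l = m
        · left; rw [if_neg (by omega)]
        · right; rw [if_neg h1]
  ext i
  rw [key]
  split_ifs with h
  · rfl
  · exact hB i (not_lt.mp h)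

/-- the Teichmüller trace in a general ring -/
noncomputable def tr (p : ℕ) [Fact p.Prime] {R : Type*} [CommRing R] (r : ℕ) (c : R) :
    WittVector p R := ∑ i ∈ Finset.range r, (WittVector.teichmuller p c) ^ (p ^ i)

theorem map_tr (f : R →+* S) (r : ℕ) (c : R) :
    WittVector.map f (tr p r c) = tr p r (f c) := by
  unfold tr
  rw [map_sum]
  exact Finset.sum_congr rfl fun i _ => by rw [map_pow, WittVector.map_teichmuller]

theorem frob_teich [CharP R p] (c : R) :
    WittVector.frobenius (WittVector.teichmuller p c) = (WittVector.teichmuller p c) ^ p := by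
  rw [WittVector.frobenius_eq_map_frobenius, WittVector.map_teichmuller, frobenius_def, map_pow]

theorem frob_iter_teich [CharP R p] (i : ℕ) (c : R) :
    (WittVector.frobenius)^[i] (WittVector.teichmuller p c) =
      (WittVector.teichmuller p c) ^ (p ^ i) := by
  induction i with
  | zero => simp
  | succ i ih =>
    rw [Function.iterate_succ_apply', ih, map_pow, frob_teich, ← pow_mul, pow_succ']

theorem frob_tr [CharP R p] (r : ℕ) (c : R) (hc : c ^ p ^ r = c) :
    WittVector.frobenius (tr p r c) = tr p r c := by
  unfold tr
  rw [map_sum]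
  have h1 : ∀ i, WittVector.frobenius ((WittVector.teichmuller p c) ^ p ^ i) =
      (WittVector.teichmuller p c) ^ p ^ (i + 1) := by
    intro i
    rw [map_pow, frob_teich, ← pow_mul, pow_succ']
  simp only [h1]
  have h2 := Finset.sum_range_succ' (fun i => (WittVector.teichmuller p c) ^ p ^ i) r
  rw [Finset.sum_range_succ] at h2
  have h3 : (WittVector.teichmuller p c) ^ p ^ r = (WittVector.teichmuller p c) ^ p ^ 0 := by
    rw [← map_pow, hc, pow_zero, pow_one]
  rw [h3] at h2
  exact (add_right_cancel h2).symm

theorem ppow_mul_tr [CharP R p] (r j : ℕ) (c : R) (hc : c ^ p ^ r = c) :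
    (p : WittVector p R) ^ j * tr p r c = (WittVector.verschiebung)^[j] (tr p r c) := by
  induction j with
  | zero => simp
  | succ j ih =>
    have hcomm : ∀ x : WittVector p R, WittVector.verschiebung (WittVector.frobenius x) = x * p :=
      WittVector.verschiebung_frobenius
    have h1 : ∀ j, WittVector.frobenius ((WittVector.verschiebung)^[j] (tr p r c)) =
        (WittVector.verschiebung)^[j] (tr p r c) := by
      intro j
      have h2 : Function.Commute (WittVector.frobenius : WittVector p R → WittVector p R)
        (WittVector.verschiebung) := WittVector.verschiebung_frobenius_comm.symm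
      have h3 := (h2.iterate_right j) (tr p r c)
      rw [h3, frob_tr r c hc]
    rw [pow_succ', mul_assoc, ih, Function.iterate_succ_apply', mul_comm, ← hcomm, h1]

/-- The iterated Frobenius applied to a sum of shifted Teichmüller representatives. -/
theorem sum_frob_iter [CharP R p] (n r : ℕ) (β : ℕ → R) (hβ : ∀ j, j < n → β j ^ p ^ r = β j) :
    ∑ i ∈ Finset.range r, (WittVector.frobenius)^[i]
      (∑ j ∈ Finset.range n, (WittVector.verschiebung)^[j] (WittVector.teichmuller p (β j))) =
      ∑ j ∈ Finset.range n, (p : WittVector p R) ^ j * tr p r (β j) := by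
  have h1 : ∀ i, (WittVector.frobenius)^[i]
      (∑ j ∈ Finset.range n, (WittVector.verschiebung)^[j] (WittVector.teichmuller p (β j))) =
      ∑ j ∈ Finset.range n, (WittVector.verschiebung)^[j]
        ((WittVector.teichmuller p (β j)) ^ p ^ i) := by
    intro i
    have h2 : ∀ x : WittVector p R, (WittVector.frobenius)^[i] x =
        (WittVector.frobenius ^ i : WittVector p R →+* WittVector p R) x := by
      intro x
      rw [RingHom.coe_pow]
    rw [h2, map_sum]
    refine Finset.sum_congr rfl fun j _ => ?_
    rw [← h2]
    have h3 : Function.Commute (WittVector.frobenius : WittVector p R → WittVector p R)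
        (WittVector.verschiebung) := WittVector.verschiebung_frobenius_comm.symm
    rw [(h3.iterate_iterate i j) _, frob_iter_teich]
  simp only [h1]
  rw [Finset.sum_comm]
  refine Finset.sum_congr rfl fun j hj => ?_
  rw [ppow_mul_tr r j (β j) (hβ j (Finset.mem_range.mp hj)), tr, viter_sum]

/-- Telescoping. -/
theorem frob_iter_sub [CharP R p] (r : ℕ) (Y : WittVector p R) :
    (WittVector.frobenius)^[r] Y - Y =
      ∑ i ∈ Finset.range r, (WittVector.frobenius)^[i] (WittVector.frobenius Y - Y) := by
  induction r with
  | zero => simp
  | succ r ih =>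
    have h2 : ∀ x y : WittVector p R, (WittVector.frobenius)^[r] (x - y) =
        (WittVector.frobenius)^[r] x - (WittVector.frobenius)^[r] y := by
      intro x y
      have h3 : ∀ x : WittVector p R, (WittVector.frobenius)^[r] x =
          (WittVector.frobenius ^ r : WittVector p R →+* WittVector p R) x := by
        intro x
        rw [RingHom.coe_pow]
      rw [h3, h3, h3, map_sub]
    rw [Finset.sum_range_succ, ← ih, h2, Function.iterate_succ_apply]
    ring

/-- The main computation over the residue field. -/
theorem main_res [CharP R p] (n r : ℕ) (Y B : WittVector p R) (β : ℕ → R)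
    (hβ : ∀ j, j < n → β j ^ p ^ r = β j)
    (hB : ∀ j, j < n → B.coeff j = β j) (h : VZ n (WittVector.frobenius Y - Y - B)) :
    VZ n ((WittVector.frobenius)^[r] Y - Y -
      ∑ j ∈ Finset.range n, (p : WittVector p R) ^ j * tr p r (β j)) := by
  set B' : WittVector p R := ∑ j ∈ Finset.range n,
    (WittVector.verschiebung)^[j] (WittVector.teichmuller p (β j)) with hB'
  have hB'' : VZ n (B - B') := by
    rw [vz_sub_iff]
    intro i hi
    have h1 := eq_sum_teich n (WittVector.mk p fun i => if i < n then β i else 0)
      (fun i hi => by simp [not_lt.mpr hi])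
    have h2 : B' = WittVector.mk p fun i => if i < n then β i else 0 := by
      rw [h1, hB']
      refine Finset.sum_congr rfl fun j hj => ?_
      rw [WittVector.coeff_mk, if_pos (Finset.mem_range.mp hj)]
    rw [h2, hB i hi, WittVector.coeff_mk, if_pos hi]
  have h3 : VZ n (WittVector.frobenius Y - Y - B') := by
    have := vz_add n h hB''
    convert this using 1
    ring
  rw [frob_iter_sub, ← sum_frob_iter n r β hβ, ← Finset.sum_sub_distrib]
  apply vz_sum
  intro i _
  have h4 := vz_frob_iter n i _ h3
  convert h4 using 1
  have h5 : ∀ x : WittVector p R, (WittVector.frobenius)^[i] x =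
      (WittVector.frobenius ^ i : WittVector p R →+* WittVector p R) x := by
    intro x
    rw [RingHom.coe_pow]
  rw [h5, h5, h5, ← map_sub]

end witt

end Pool.Agent.H823R3.ZP
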